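import Pool.Agent.Helper35.OE.GoalsE

/-!
# Packet OE-E-LAW
-/

set_option autoImplicit false

open MeasureTheory
open scoped ENNReal

namespace Pool.Agent.Helper58.OE

open _root_.Pool.Agent.Helper73.OE _root_.Pool.Agent.Helper35.OE

section

variable {H S L : Type} [Group H] [Countable H] [Fintype S] [Fintype L] (X : Sys H S L)
  (P : ℕ → Par) (ε : ℕ → ℝ)

instance instLamS : IsProbabilityMeasure (Sys.lamS H S) := by
  unfold Sys.lamS
  infer_instance

instance instLamN : IsProbabilityMeasure (lamN H S) := by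
  unfold lamN
  infer_instance

/-- The state after `i` batches. -/
noncomputable def TT (i : ℕ) (w : Om H S L) : Om H S L :=
  ((traj X P ε w i, w.1.2), fun j => w.2 (i + j))

omit [Countable H] [Fintype S] in
theorem TT_zero : TT X P ε 0 = (id : Om H S L → Om H S L) := by
  funext w
  refine Prod.ext rfl ?_
  funext j
  show w.2 (0 + j) = w.2 j
  rw [Nat.zero_add]

/-- The batch map. -/
noncomputable def bm (p : Par) (e e' : ℝ) (w : (Cfg H S L × Env H S) × Seeds H S) :
    Cfg H S L × Env H S := (X.batch p e e' w.1.1 w.1.2 w.2, w.1.2)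

/-- Splitting off the first seed. -/
def spl (u : ℕ → Seeds H S) : Seeds H S × (ℕ → Seeds H S) := (u 0, fun i => u (i + 1))

omit [Countable H] [Fintype S] in
theorem TT_succ (i : ℕ) : TT X P ε (i + 1) = (Prod.map (bm X (P i) (ε i) (ε (i + 1))) id) ∘
    (MeasurableEquiv.prodAssoc.symm : _ → ((Cfg H S L × Env H S) × Seeds H S) ×
      (ℕ → Seeds H S)) ∘ (Prod.map id spl) ∘ TT X P ε i := by
  funext w
  refine Prod.ext rfl ?_
  funext j
  show w.2 (i + 1 + j) = w.2 (i + (j + 1))
  rw [Nat.add_assoc, Nat.add_comm 1 j]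

omit [Group H] [Countable H] [Fintype S] in
theorem meas_spl : Measurable (spl : (ℕ → Seeds H S) → Seeds H S × (ℕ → Seeds H S)) := by
  unfold spl
  fun_prop

theorem meas_bm (hB : BatchMeas_stmt) (p : Par) (e e' : ℝ) : Measurable (bm X p e e') :=
  (hB X p e e').prodMk (measurable_snd.comp measurable_fst)

theorem law (hB : BatchMeas_stmt) (hH : G_HEAD) (μ : Measure (Cfg H S L × Env H S))
    [IsProbabilityMeasure μ] (i : ℕ) : Measurable (TT X P ε i) ∧
      IsProbabilityMeasure (laws X P ε μ i) ∧
      (μ.prod (lamN H S)).map (TT X P ε i) = (laws X P ε μ i).prod (lamN H S) := by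
  induction i with
  | zero =>
    rw [TT_zero]
    exact ⟨measurable_id, ‹IsProbabilityMeasure μ›, Measure.map_id⟩
  | succ i ih =>
    obtain ⟨h1, h2, h3⟩ := ih
    have hb := meas_bm X hB (P i) (ε i) (ε (i + 1))
    have m1 : Measurable (Prod.map id spl : (Cfg H S L × Env H S) × (ℕ → Seeds H S) → _) :=
      measurable_id.prodMap meas_spl
    have m2 : Measurable (MeasurableEquiv.prodAssoc.symm :
        (Cfg H S L × Env H S) × (Seeds H S × (ℕ → Seeds H S)) → _) :=
      MeasurableEquiv.measurable _
    have m3 : Measurable (Prod.map (bm X (P i) (ε i) (ε (i + 1))) id :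
        ((Cfg H S L × Env H S) × Seeds H S) × (ℕ → Seeds H S) → _) :=
      hb.prodMap measurable_id
    have hp : IsProbabilityMeasure (laws X P ε μ (i + 1)) := by
      show IsProbabilityMeasure (((laws X P ε μ i).prod (Sys.lamS H S)).map
        (bm X (P i) (ε i) (ε (i + 1))))
      exact Measure.isProbabilityMeasure_map hb.aemeasurable
    refine ⟨?_, hp, ?_⟩
    · rw [TT_succ]
      exact m3.comp (m2.comp (m1.comp h1))
    · rw [TT_succ, ← Measure.map_map m3 (m2.comp (m1.comp h1)),
        ← Measure.map_map m2 (m1.comp h1), ← Measure.map_map m1 h1, h3,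
        ← Measure.map_prod_map _ _ measurable_id meas_spl, Measure.map_id]
      have e1 : (lamN H S).map spl = (Sys.lamS H S).prod (lamN H S) := hH (Sys.lamS H S)
      have e2 : ((laws X P ε μ i).prod ((Sys.lamS H S).prod (lamN H S))).map
          MeasurableEquiv.prodAssoc.symm = ((laws X P ε μ i).prod (Sys.lamS H S)).prod
            (lamN H S) := by
        rw [← Measure.prodAssoc_prod, MeasurableEquiv.map_symm_map]
      rw [e1, e2, ← Measure.map_prod_map _ _ hb measurable_id, Measure.map_id]
      rfl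

end

theorem gLAW : G_LAW := by
  intro hB hH H S L _ _ _ _ X P ε μ _ i
  obtain ⟨h1, h2, h3⟩ := law X P ε hB hH μ i
  refine ⟨measurable_fst.comp (measurable_fst.comp h1), h2, ?_⟩
  have m0 : Measurable (fun u : ℕ → Seeds H S => u 0) := measurable_pi_apply 0
  have m1 : Measurable (Prod.map id (fun u : ℕ → Seeds H S => u 0) :
      (Cfg H S L × Env H S) × (ℕ → Seeds H S) → _) := measurable_id.prodMap m0
  have e : (fun w : Om H S L => ((traj X P ε w i, w.1.2), w.2 i)) =
      (Prod.map id (fun u : ℕ → Seeds H S => u 0)) ∘ TT X P ε i := by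
    funext w
    rfl
  rw [e, ← Measure.map_map m1 h1, h3, ← Measure.map_prod_map _ _ measurable_id m0,
    Measure.map_id]
  congr 1
  exact Measure.infinitePi_map_eval (fun _ : ℕ => Sys.lamS H S) 0

end Pool.Agent.Helper58.OE
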