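import Pool.Agent.Helper75.OE.GoalsB2

/-!
# Packet OE-BASE: the vertices in balls or at the ends of runs
-/

set_option autoImplicit false

namespace Pool.Agent.Helper58.OE

open _root_.Pool.Agent.Helper73.OE _root_.Pool.Agent.Helper73.OE.Sys
open _root_.Pool.Agent.Helper75.OE
open Finset

section

variable {H S L : Type} [Group H] [Fintype S] [Fintype L] (X : Sys H S L) (P : Par)
  (u : H × S → ℕ)

/-- The last vertices of the runs of the records at `e`. -/
def Lst (l : List (H × S)) (O : Edges H S) (q : Cfg H S L) (e : H × S) : Set H :=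
  {z | ∃ O' f', Rec X P u l O q e O' f' ∧ ∃ p' y',
    At X O' f' (X.nb e.1 e.2) (X.bar e.2) (X.tau (f' e.1 e.2)) z p' y' ∧
      ¬ O' z ((f' z).symm y')}

omit [Fintype S] in
theorem lst_sub (hAT : B_AT) (hR : B_RINV) {l : List (H × S)} {O : Edges H S} {q : Cfg H S L}
    (h1 : X.Sym O) (h2 : X.MA O Set.univ q) (h3 : Fr X O l) (e : H × S) :
    (Lst X P u l O q e).Subsingleton := by
  rintro z ⟨O', f', hr, p', y', ha, hn⟩ z2 ⟨O'', f'', hr2, p2, y2, ha2, hn2⟩
  obtain ⟨rfl, rfl⟩ := (hR H S L X P u l O q h1 h2 h3).2.2 e O' f' O'' f'' hr hr2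
  exact (hAT H S L X O' f' _ _ _).2.2.2.2.1 z p' y' z2 p2 y2 ha hn ha2 hn2

end

theorem base (hC : B_CVX) (hU : B_UFIN) (hB : B_BALLC) (hD : B_DICH) (hAT : B_AT)
    (hR : B_RINV) : B_BASE := by
  classical
  intro H S L _ _ _ X P u O Sb q Λ l1 l2 O1 O2 o U h hUe ho
  have hinv : ∀ (l : List (H × S)) (Oi : Edges H S),
      (∀ z r, Oi z r → O z r ∧ z ∈ Λ ∧ X.nb z r ∈ Λ) → X.Sym Oi → (∀ e ∈ l, e ∈ l2) →
      l.Pairwise (fun e e' => e ≠ e' ∧ e' ≠ X.rev e) →
      X.MA Oi Set.univ q ∧ Fr X Oi l ∧ (UU X P u l Oi q).Finite := by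
    intro l Oi hs hsym hl hp
    refine ⟨fun v s hv hn ho ↦ h.ma v s hv hn (hs v s ho).1,
      ⟨fun e he ho ↦ (h.lS e (hl e he)).2 (hs _ _ ho).1, hp⟩, ?_⟩
    exact hU H S L X P u l Oi q (Λ : Set H) Λ.finite_toSet
      (fun z r hz ↦ ⟨(hs z r hz).2.1, (hs z r hz).2.2⟩) fun e he ↦ h.lin e (hl e he)
  obtain ⟨ma1, fr1, fin1⟩ := hinv l1 O1 h.sub1 h.sym1 h.lsub h.fr1
  obtain ⟨ma2, fr2, fin2⟩ := hinv l2 O2 h.sub2 h.sym2 (fun e he ↦ he) h.fr2
  have finU : U.Finite := by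
    rw [hUe]
    exact fin1.union fin2
  obtain ⟨-, -, -, hC4, hC5, -⟩ := hC H S L X
  have finC : (Cmp X U o).Finite := finU.subset (hC5 U o)
  set C : Finset H := finC.toFinset with hCd
  have memC : ∀ z, z ∈ C ↔ z ∈ Cmp X U o := fun z ↦ finC.mem_toFinset
  have hoC : o ∈ C := (memC o).2 (hC4 U o ho).1
  -- explored sets which meet `C`
  have hself : ∀ (O' : Edges H S) (f' : Cfg H S L) (e : H × S), e.1 ∈ Ex X P O' f' e := by
    intro O' f' e
    left
    rw [(X.dist_eq_zero _ _).2 rfl]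
    exact Nat.zero_le _
  have hsubU : ∀ (e' : H × S) (O' : Edges H S) (f' : Cfg H S L),
      (Rec X P u l1 O1 q e' O' f' ∨ Rec X P u l2 O2 q e' O' f') → Ex X P O' f' e' ⊆ U := by
    intro e' O' f' hr z hz
    rw [hUe]
    rcases hr with hr | hr
    · exact Or.inl ⟨e', O', f', hr, hz⟩
    · exact Or.inr ⟨e', O', f', hr, hz⟩
  have hmeet : ∀ (e' : H × S) (O' : Edges H S) (f' : Cfg H S L),
      (Rec X P u l1 O1 q e' O' f' ∨ Rec X P u l2 O2 q e' O' f') →
      (∃ z ∈ Ex X P O' f' e', z ∈ C) → Ex X P O' f' e' ⊆ (C : Set H) := by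
    rintro e' O' f' hr ⟨z, hz, hzC⟩ w hw
    rcases hD H S L X P O' f' e' U o (hsubU e' O' f' hr) with h1 | h1
    · exact (memC w).2 (h1 hw)
    · exact absurd ((memC z).1 hzC) (Set.disjoint_left.1 h1 hz)
  have hl2 : ∀ (e' : H × S) (O' : Edges H S) (f' : Cfg H S L),
      (Rec X P u l1 O1 q e' O' f' ∨ Rec X P u l2 O2 q e' O' f') → e' ∈ l2 := by
    intro e' O' f' hr
    rcases hr with hr | hr
    · exact h.lsub _ ((hR H S L X P u l1 O1 q h.sym1 ma1 fr1).1 e' O' f' hr).1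
    · exact ((hR H S L X P u l2 O2 q h.sym2 ma2 fr2).1 e' O' f' hr).1
  set A : Finset (H × S) := l2.toFinset.filter fun e => e.1 ∈ C with hA
  have memA : ∀ e, e ∈ A ↔ e ∈ l2 ∧ e.1 ∈ C := by
    intro e
    rw [hA, Finset.mem_filter, List.mem_toFinset]
  have finb : ∀ v : H, (X.ball v (rad P)).Finite := fun v ↦ X.finite_ball v _
  have s1 := fun e ↦ lst_sub X P u hAT hR h.sym1 ma1 fr1 e
  have s2 := fun e ↦ lst_sub X P u hAT hR h.sym2 ma2 fr2 e
  let g : H × S → Finset H := fun e ↦ ((finb e.1).toFinset ∪ (finb (X.nb e.1 e.2)).toFinset) ∪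
    ((s1 e).finite.toFinset ∪ (s2 e).finite.toFinset)
  have cb : ∀ v : H, (finb v).toFinset.card = (X.ball 1 (rad P)).ncard := by
    intro v
    rw [← Set.ncard_eq_toFinset_card _ (finb v), hB H S L X]
  have cs : ∀ (T : Set H) (hT : T.Subsingleton), hT.finite.toFinset.card ≤ 1 := by
    intro T hT
    rw [Finset.card_le_one]
    intro a ha b hb
    exact hT (hT.finite.mem_toFinset.1 ha) (hT.finite.mem_toFinset.1 hb)
  have cg : ∀ e ∈ A, (g e).card ≤ 2 * (X.ball 1 (rad P)).ncard + 2 := by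
    intro e _
    have t1 := Finset.card_union_le ((finb e.1).toFinset ∪ (finb (X.nb e.1 e.2)).toFinset)
      ((s1 e).finite.toFinset ∪ (s2 e).finite.toFinset)
    have t2 := Finset.card_union_le (finb e.1).toFinset (finb (X.nb e.1 e.2)).toFinset
    have t3 := Finset.card_union_le (s1 e).finite.toFinset (s2 e).finite.toFinset
    have t4 := cb e.1
    have t5 := cb (X.nb e.1 e.2)
    have t6 := cs _ (s1 e)
    have t7 := cs _ (s2 e)
    show (((finb e.1).toFinset ∪ (finb (X.nb e.1 e.2)).toFinset) ∪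
      ((s1 e).finite.toFinset ∪ (s2 e).finite.toFinset)).card ≤ _
    omega
  refine ⟨C, insert o (A.biUnion g), finC.coe_toFinset, ?_, Finset.mem_insert_self _ _, ?_, ?_,
    ?_, ?_⟩
  · intro z hz
    rcases Finset.mem_insert.1 hz with rfl | hz
    · exact hoC
    obtain ⟨e, he, hz⟩ := Finset.mem_biUnion.1 hz
    obtain ⟨hel, heC⟩ := (memA e).1 he
    rcases Finset.mem_union.1 hz with hz | hz
    · obtain ⟨O', f', hr⟩ := (hR H S L X P u l2 O2 q h.sym2 ma2 fr2).2.1 e hel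
      have hK := hmeet e O' f' (Or.inr hr) ⟨e.1, hself _ _ _, heC⟩
      apply hK
      rcases Finset.mem_union.1 hz with hz | hz
      · exact Or.inl ((finb _).mem_toFinset.1 hz)
      · exact Or.inr (Or.inl ((finb _).mem_toFinset.1 hz))
    · rcases Finset.mem_union.1 hz with hz | hz
      · obtain ⟨O', f', hr, p', y', ha, -⟩ := (s1 e).finite.mem_toFinset.1 hz
        have hK := hmeet e O' f' (Or.inl hr) ⟨e.1, hself _ _ _, heC⟩
        exact hK (Or.inr (Or.inr (((hAT H S L X O' f' _ _ _).1 z).2 ⟨p', y', ha⟩)))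
      · obtain ⟨O', f', hr, p', y', ha, -⟩ := (s2 e).finite.mem_toFinset.1 hz
        have hK := hmeet e O' f' (Or.inr hr) ⟨e.1, hself _ _ _, heC⟩
        exact hK (Or.inr (Or.inr (((hAT H S L X O' f' _ _ _).1 z).2 ⟨p', y', ha⟩)))
  · rw [Nat.one_le_iff_ne_zero, Finset.card_ne_zero]
    have hex : ∃ e' O' f', (Rec X P u l1 O1 q e' O' f' ∨ Rec X P u l2 O2 q e' O' f') ∧
        o ∈ Ex X P O' f' e' := by
      rw [hUe] at ho
      rcases ho with ⟨e', O', f', hr, hz⟩ | ⟨e', O', f', hr, hz⟩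
      · exact ⟨e', O', f', Or.inl hr, hz⟩
      · exact ⟨e', O', f', Or.inr hr, hz⟩
    obtain ⟨e', O', f', hr, hz⟩ := hex
    have hK := hmeet e' O' f' hr ⟨o, hz, hoC⟩
    exact ⟨e', (memA e').2 ⟨hl2 e' O' f' hr, hK (hself _ _ _)⟩⟩
  · have t1 := Finset.card_insert_le o (A.biUnion g)
    have t2 := Finset.card_biUnion_le_card_mul A g _ cg
    have t3 := t1.trans (Nat.add_le_add_right t2 1)
    rw [add_comm] at t3
    exact t3
  · intro e he heC z hz
    refine Finset.mem_insert_of_mem (Finset.mem_biUnion.2 ⟨e, (memA e).2 ⟨he, heC⟩, ?_⟩)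
    refine Finset.mem_union_left _ ?_
    rcases hz with hz | hz
    · exact Finset.mem_union_left _ ((finb _).mem_toFinset.2 hz)
    · exact Finset.mem_union_right _ ((finb _).mem_toFinset.2 hz)
  · intro e' O' f' hr heC z p' y' ha hn
    refine Finset.mem_insert_of_mem (Finset.mem_biUnion.2
      ⟨e', (memA e').2 ⟨hl2 e' O' f' hr, heC⟩, ?_⟩)
    refine Finset.mem_union_right _ ?_
    rcases hr with hr | hr
    · exact Finset.mem_union_left _ ((s1 e').finite.mem_toFinset.2 ⟨O', f', hr, p', y', ha, hn⟩)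
    · exact Finset.mem_union_right _ ((s2 e').finite.mem_toFinset.2 ⟨O', f', hr, p', y', ha, hn⟩)

end Pool.Agent.Helper58.OE
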