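import Pool.Agent.Helper79.OE.GoalsD

/-!
# Packet OE-ORD: the sorted list of the updates
-/

set_option autoImplicit false

namespace Pool.Agent.Helper58.OE

open _root_.Pool.Agent.Helper73.OE _root_.Pool.Agent.Helper79.OE

theorem ord : D_ORD := by
  classical
  intro H S L _ X ε ε' η Λ
  constructor
  · rintro l l' ⟨h1, h2⟩ ⟨h3, h4⟩
    have hn : l.Nodup := h1.imp fun h ↦ by
      rintro rfl
      exact lt_irrefl _ h
    have hn' : l'.Nodup := h3.imp fun h ↦ by
      rintro rfl
      exact lt_irrefl _ h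
    have hp : l.Perm l' := (List.perm_ext_iff_of_nodup hn hn').2 fun a ↦ (h2 a).trans (h4 a).symm
    exact hp.eq_of_pairwise (fun a b _ _ hab hba ↦ absurd hba hab.not_gt) h1 h3
  · intro hS hΛ hD
    let A : Set (H × S) := {e | X.Si ε ε' η e.1 e.2 ∧ e.1 ∈ Λ ∧ X.nb e.1 e.2 ∈ Λ ∧ X.Pos η e}
    have hA : A.Finite := by
      refine (hΛ.prod (Set.finite_univ : (Set.univ : Set S).Finite)).subset ?_
      rintro ⟨v, s⟩ ⟨-, h, -, -⟩
      exact ⟨h, Set.mem_univ _⟩
    have hprio : ∀ e ∈ A, X.prio η e = ((η (X.rev e)).2 : ℝ) := by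
      rintro e ⟨-, -, -, h⟩
      unfold Sys.prio
      exact max_eq_right h.le
    have hinj : ∀ e ∈ A, ∀ e' ∈ A, X.prio η e = X.prio η e' → e = e' := by
      intro e he e' he' h
      rw [hprio e he, hprio e' he'] at h
      have h1 : (η (X.rev e)).2 = (η (X.rev e')).2 := Subtype.ext h
      have h2 := hD _ _ h1
      have h3 := congrArg X.rev h2
      rwa [X.rev_rev, X.rev_rev] at h3
    let r : H × S → H × S → Prop := fun e e' ↦ X.prio η e ≤ X.prio η e'
    have : Std.Total r := ⟨fun a b ↦ le_total _ _⟩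
    have : IsTrans (H × S) r := ⟨fun a b c hab hbc ↦ le_trans hab hbc⟩
    let l := List.insertionSort r hA.toFinset.toList
    have hmem : ∀ e, e ∈ l ↔ e ∈ A := by
      intro e
      rw [List.mem_insertionSort, Finset.mem_toList, Set.Finite.mem_toFinset]
    have hnd : l.Nodup := (List.perm_insertionSort r _).nodup_iff.2 (Finset.nodup_toList _)
    have hsort : l.Pairwise r := List.pairwise_insertionSort r _
    have hord : X.IsOrd ε ε' η Λ l := by
      refine ⟨?_, hmem⟩
      have h1 : l.Pairwise fun e e' ↦ r e e' ∧ e ≠ e' := hsort.and hnd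
      refine List.Pairwise.imp_of_mem (fun {a b} ha hb h ↦ ?_) h1
      exact lt_of_le_of_ne h.1 fun he ↦ h.2 (hinj a ((hmem a).1 ha) b ((hmem b).1 hb) he)
    have hex : ∃ l, X.IsOrd ε ε' η Λ l := ⟨l, hord⟩
    unfold Sys.ordL
    rw [dif_pos hex]
    exact hex.choose_spec

end Pool.Agent.Helper58.OE
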